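import Mathlib
import Pool.Agent.H.MP_36be4a_lc.PX.Decide
import Pool.Agent.H.MP_36be4a_lc.PX.Hard

/-!
# Exact matching and minimum degree: the threshold is one half

Above minimum degree `n / 2` exact matching in bipartite graphs with parts of size `n` is decided
by polynomially many ordinary matching problems; below it the condition is no restriction.
-/

namespace Pool.Agent.Results.MP_36be4a_lc.DegreeThreshold

open ExPeriod

theorem result :
    (∀ ε : ℝ, 0 < ε → ε ≤ 1 / 2 → ∀ (ι κ : Type) [Fintype ι] [Fintype κ] (E R : ι → κ → Prop),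
      Fintype.card ι = Fintype.card κ → MinDeg (1 / 2 + ε) E →
        DecidedBy (PP (2 * ε)) (CC (2 * ε)) E R) ∧
    (∀ α : ℝ, α < 1 / 2 → ∃ K : ℕ,
      ∀ (ι κ : Type) [Fintype ι] [Fintype κ] (E R : ι → κ → Prop),
        MinDeg α (padE (K * Fintype.card ι) E) ∧
        ∀ k, HasExact (padE (K * Fintype.card ι) E) (padR (K * Fintype.card ι) R) k ↔
          HasExact E R k) :=
  ⟨fun ε h0 h1 ι κ _ _ E R hcard hd =>
      decision (2 * ε) (by linarith) E R hcard (expanding_of_minDeg ε E hcard h1 hd),
    fun α hα => hard α hα⟩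

end Pool.Agent.Results.MP_36be4a_lc.DegreeThreshold
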