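import Mathlib
import Pool.Agent.H.MP_36be4a_lc.PX.Decide
import Pool.Agent.H.MP_36be4a_lc.PX.Most

/-!
# Exact matching in expanding bipartite graphs

A bipartite graph with parts of size `n` is `c`-expanding when every nonempty set `X` of rows
has all columns, or at least `|X| + c n` columns, as neighbours.  For a `c`-expanding graph and any
red-blue colouring the set of achieved red counts is periodic, with the explicit period
`PP c = lcm (1, ..., 2 QQ c + 3)`, except within distance `CC c` of its least and largest
members; near the two ends it is described by potentials and at most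
`(n ^ 2 + 1) ^ (CC c + PP c)` ordinary matching problems.  All numbers besides `n` depend on `c`
only.
-/

namespace Pool.Agent.Results.MP_36be4a_lc.ExpandingPeriodic

open ExPeriod

theorem result :
    (∀ c : ℝ, 0 < c → ∀ (ι κ : Type) [Fintype ι] [Fintype κ] (E R : ι → κ → Prop),
      Fintype.card ι = Fintype.card κ → Expanding c E → DecidedBy (PP c) (CC c) E R) ∧
    (∀ (D : ℕ) (ι κ : Type) [Fintype ι] [Fintype κ],
      ((Finset.univ : Finset (Finset (ι × κ))).filter (fun T => T.card ≤ D)).card ≤
        (Fintype.card ι * Fintype.card κ + 1) ^ D) ∧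
    (∀ (δ η : ℝ) (ι κ : Type) [Fintype ι] [Fintype κ] (E : ι → κ → Prop),
      Fintype.card ι = Fintype.card κ → MinDeg δ E → NoHole η E → Expanding (δ - η) E) ∧
    (∃ q : ℝ, 0 < q ∧ q < 1 ∧ ∀ᶠ n : ℕ in Filter.atTop,
      (numBad (1 / 16) n : ℝ) ≤ q ^ n * 2 ^ (n * n)) :=
  ⟨fun c hc ι κ _ _ E R hcard hE => decision c hc E R hcard hE,
    fun D ι κ _ _ => count_candidates D,
    fun δ η ι κ _ _ E hcard hd hh => expanding_of_noHole δ η E hcard hd hh,
    most_expanding⟩

end Pool.Agent.Results.MP_36be4a_lc.ExpandingPeriodic
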