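import Mathlib
import Pool.Agent.H.MP_36be4a_lc.PX.Sparse

/-!
# Exact matching in pseudo-random and random bipartite graphs of polynomial degree

For every exponent `γ > 0` there are a period `P` and a margin `C` such that, for jumbled bipartite
graphs with `lam ≤ D n ^ (-γ) / 16` and for almost all bipartite graphs of edge probability
`p ≥ n ^ (γ - 1)`, every red-blue colouring is handled by `DecidedBy P C`: the achieved red counts
are periodic with period `P` outside distance `C` of their least and largest members, where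
potentials and at most `(n ^ 2 + 1) ^ (C + P)` ordinary matching problems decide.
-/

namespace Pool.Agent.Results.MP_36be4a_lc.PseudoRandom

open ExPeriod

theorem result (γ : ℝ) (hγ : 0 < γ) : ∃ P C : ℕ, 0 < P ∧
    (∀ (ι κ : Type) [Fintype ι] [Fintype κ] (E R : ι → κ → Prop) (D lam : ℝ), 0 < D →
      Fintype.card ι = Fintype.card κ → MinDeg (D / 2 / (Fintype.card ι : ℝ)) E →
      Jumbled D lam E → 0 ≤ lam → lam ≤ D * (Fintype.card ι : ℝ) ^ (-γ) / 16 →
        DecidedBy P C E R) ∧
    (∀ ε : ℝ, 0 < ε → ∃ n0 : ℕ, ∀ n : ℕ, n0 ≤ n → ∀ p : ℝ, (n : ℝ) ^ (γ - 1) ≤ p → p ≤ 1 →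
      1 - ε ≤ Pr p n (fun E => ∀ R : Fin n → Fin n → Prop,
        DecidedBy P C (fun i j => E i j = true) R)) :=
  sparse_main γ hγ

end Pool.Agent.Results.MP_36be4a_lc.PseudoRandom
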