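import Pool.Agent.H.MP_36be4a.Top

/-!
# Exact perfect matchings in bipartite graphs: an explicit hitting set of subexponential size

`EMx.hittingSet m` is an explicit finite set of weight functions on the edges of `K_{m,m}`.  It has
at most `2 ^ (K m ^ (14/15))` members, and a red-blue coloured bipartite graph on `m + m` vertices
has a perfect matching with exactly `k` red edges if and only if, for some member `w` of the hitting
set, the coefficient of `X ^ k` in the determinant of the matrix with entries `2 ^ w` (blue edges)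
and `2 ^ w * X` (red edges) is nonzero.
-/

namespace Pool.Agent.Results.MP_36be4a_lc.SubexpHittingSet

open EMx

theorem result : ∃ K : ℝ, ∀ m : ℕ,
    ((hittingSet m).card : ℝ) ≤ 2 ^ (K * (m : ℝ) ^ ((14 : ℝ) / 15)) ∧
    (∀ w ∈ hittingSet m, ∀ i j, (w i j : ℝ) ≤ 2 ^ (K * (m : ℝ) ^ ((14 : ℝ) / 15))) ∧
    ∀ (E R : Fin m → Fin m → Bool) (k : ℕ),
      (∃ σ : Equiv.Perm (Fin m), IsEx E R k σ) ↔
        ∃ w ∈ hittingSet m, (mtx E R w).det.coeff k ≠ 0 :=
  EMx.main

end Pool.Agent.Results.MP_36be4a_lc.SubexpHittingSet
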